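import Pool.Agent.LibBRS.Defs
import Pool.Agent.LibBGR.Per

/-! ROW A5 : smooth functions on the surface are dense in `L²`. 45 min.

PLAN. Let `B` be an open ball of the plane with `D ⊆ B`, and let `w = D.indicator u`. It is in
`L²(volume)` (`hu`, `h2`, `hX.meas`; `MemLp w 2 volume`, via `memLp_two_iff_integrable_sq`). Choose
`g` smooth with compact support, support in the ball `B` (or first continuous with compact support
and then smooth; e.g. `MeasureTheory.MemLp.exist_hasCompactSupport_eLpNorm_sub_le`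
/ `ContDiffBump` mollification; the density of `C_c^∞` in `L^p` may be in Mathlib:
search `HasCompactSupport` with `ContDiff` and `eLpNorm`), `∫ (w - g)^2 ≤ η`, multiplied by a cutoff
so that it lives in a fixed ball `B'`. `v = per Γ g ∈ TestS Γ` (`per_mem`). On `D`: `u = per Γ w`
(only `γ = 1` counts, `hX.orbit`), so `u - v = per Γ (w - g)` on `D`. At most `M` elements `γ` satisfy
`γ • z ∈ closure B'` for some `z ∈ D` (`hX.proper` for the compact set `closure D ∪ closure B'`), so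
`(u - v)^2 ≤ M ∑_{γ} ((w - g) (γ • z))^2` and `∫_D ∑_γ ((w - g) (γ • z))^2 √(dt m) = ∫_{Pl} (w - g)^2
√(dt m)` (change of variables, see `PER_rho`, and the theorems about integrals of `per` in
`LibBGR/Per.lean`), which is `≤ sup_{B'} √(dt m) * η`. -/

open MeasureTheory Set Filter Topology BGS
open scoped ContDiff ENNReal NNReal

namespace BRS

variable {Γ : Type} [Group Γ] [MulAction Γ Pl] {D : Set Pl}

private theorem A5_alg {N C η ε : ℝ} (hN : N ≠ 0) (hC : C ≠ 0) (h : η = ε / (N * N * C)) :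
    N * (N * (C * η)) = ε := by
  rw [h]
  field_simp

/-- approximation in `L²` of the plane -/
private theorem A5_approx {w : Pl → ℝ} (hw : AEStronglyMeasurable w volume)
    (h2 : Integrable fun z => w z ^ 2) {η : ℝ} (hη : 0 < η) :
    ∃ g : Pl → ℝ, HasCompactSupport g ∧ ContDiff ℝ ∞ g ∧ Integrable (fun z => (w z - g z) ^ 2) ∧
      ∫ z, (w z - g z) ^ 2 ≤ η := by
  have hwL : MemLp w 2 volume := (memLp_two_iff_integrable_sq hw).2 h2
  have hs : 0 < √η := Real.sqrt_pos.2 hη
  obtain ⟨g, hg1, hg2, hg3⟩ := hwL.exist_eLpNorm_sub_le (by norm_num) (by norm_num) hs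
  have hgL : MemLp g 2 volume := hg2.continuous.memLp_of_hasCompactSupport hg1
  have hd : MemLp (w - g) 2 volume := hwL.sub hgL
  have hint : Integrable fun z => (w z - g z) ^ 2 := hd.integrable_sq
  refine ⟨g, hg1, hg2, hint, ?_⟩
  have h3 := hd.eLpNorm_eq_integral_rpow_norm (by norm_num) (by norm_num)
  rw [h3] at hg3
  have h4 := (ENNReal.ofReal_le_ofReal_iff hs.le).1 hg3
  have h5 : ∫ a, ‖(w - g) a‖ ^ (2 : ENNReal).toReal = ∫ z, (w z - g z) ^ 2 := by
    refine integral_congr_ae (ae_of_all _ fun z => ?_)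
    show ‖w z - g z‖ ^ (2 : ENNReal).toReal = (w z - g z) ^ 2
    rw [show (2 : ENNReal).toReal = ((2 : ℕ) : ℝ) by norm_num, Real.rpow_natCast,
      Real.norm_eq_abs, sq_abs]
  rw [h5] at h4
  have h6 : 0 ≤ ∫ z, (w z - g z) ^ 2 := integral_nonneg fun z => sq_nonneg _
  have h7 : (∫ z, (w z - g z) ^ 2) ^ ((2 : ENNReal).toReal)⁻¹ = √(∫ z, (w z - g z) ^ 2) := by
    rw [Real.sqrt_eq_rpow]
    congr 1
    norm_num
  rw [h7] at h4
  exact (Real.sqrt_le_sqrt_iff hη.le).1 h4

/-- one element of the group -/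
private theorem A5_one (hX : Surface Γ D) (m : Mt Γ D) (γ : Γ) {k : Pl → ℝ}
    (hk : Integrable fun z => k z * √(dt (m.1.1 z))) (hk0 : ∀ z, 0 ≤ k z) :
    IntegrableOn (fun z => k (γ • z) * √(dt (m.1.1 z))) D ∧
      ∫ z in D, k (γ • z) * √(dt (m.1.1 z)) ≤ ∫ z, k z * √(dt (m.1.1 z)) := by
  have h1 := PER_one hX m γ (f := k) (g := fun _ => 1) (fun _ _ => rfl)
  simp only [mul_one] at h1
  constructor
  · have h2 := (integrableOn_image_iff_integrableOn_abs_det_fderiv_smul volume hX.meas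
      (f' := fun z => fderiv ℝ (fun w : Pl => γ • w) z)
      (fun z _ => ((hX.smooth γ).differentiable (by simp) z).hasFDerivAt.hasFDerivWithinAt)
      (PER_inj γ).injOn (fun z => k z * √(dt (m.1.1 z)))).1 hk.integrableOn
    refine h2.congr_fun (fun z _ => ?_) hX.meas
    show |(fderiv ℝ (fun w : Pl => γ • w) z).det| • (k (γ • z) * √(dt (m.1.1 (γ • z)))) =
      k (γ • z) * √(dt (m.1.1 z))
    rw [smul_eq_mul, PER_rho hX m γ z]
    ring
  · rw [← h1]
    exact setIntegral_le_integral hk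
      (ae_of_all _ fun z => mul_nonneg (hk0 z) (Real.sqrt_nonneg _))

theorem dense (hX : Surface Γ D) (m : Mt Γ D) {u : Pl → ℝ}
    (hu : AEStronglyMeasurable u (volume.restrict D)) (h2 : IntegrableOn (fun z => u z ^ 2) D)
    {ε : ℝ} (hε : 0 < ε) :
    ∃ v : TestS Γ, ∫ z in D, (u z - v.1 z) ^ 2 * √(dt (m.1.1 z)) ≤ ε := by
  classical
  obtain ⟨R, hR0, hR⟩ := hX.bdd.subset_closedBall_lt 0 (0 : Pl)
  set χ : ContDiffBump (0 : Pl) := ⟨R, R + 1, hR0, by linarith⟩ with hχ
  set K : Set Pl := Metric.closedBall (0 : Pl) (R + 1) with hK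
  have hKc : IsCompact K := isCompact_closedBall 0 (R + 1)
  have hDK : D ⊆ K := hR.trans (Metric.closedBall_subset_closedBall (by linarith))
  have hχ1 : ∀ z ∈ D, χ z = 1 := fun z hz => χ.one_of_mem_closedBall (hR hz)
  have hχ0 : ∀ z, z ∉ K → χ z = 0 := fun z hz => by
    refine χ.zero_of_le_dist ?_
    by_contra h
    exact hz (Metric.mem_closedBall.2 (not_le.1 h).le)
  have hρc : Continuous fun z => √(dt (m.1.1 z)) := BGR_rho m
  obtain ⟨C, hC⟩ := hKc.exists_bound_of_continuousOn hρc.continuousOn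
  have hC0 : 0 ≤ max C 0 := le_max_right _ _
  set C' := max C 0 + 1 with hC'
  have hC'pos : 0 < C' := by linarith
  have hρK : ∀ z ∈ K, √(dt (m.1.1 z)) ≤ C' := fun z hz => by
    have h1 := hC z hz
    rw [Real.norm_of_nonneg (Real.sqrt_nonneg _)] at h1
    linarith [le_max_left C 0]
  have hfin := hX.proper K hKc
  set S : Finset Γ := hfin.toFinset with hS
  have hSmem : ∀ γ : Γ, ∀ z ∈ K, γ • z ∈ K → γ ∈ S := fun γ z hz hγ => by
    rw [hS, Finite.mem_toFinset]
    exact ⟨z, hz, hγ⟩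
  set w : Pl → ℝ := D.indicator u with hw
  have hwm : AEStronglyMeasurable w volume := (aestronglyMeasurable_indicator_iff hX.meas).2 hu
  have hw2 : Integrable fun z => w z ^ 2 := by
    have h1 : (fun z => w z ^ 2) = D.indicator fun z => u z ^ 2 := by
      funext z
      by_cases hz : z ∈ D
      · rw [indicator_of_mem hz, hw, indicator_of_mem hz]
      · rw [indicator_of_notMem hz, hw, indicator_of_notMem hz]
        norm_num
    rw [h1]
    exact (integrable_indicator_iff hX.meas).2 h2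
  set N : ℝ := (S.card : ℝ) + 1 with hN
  have hNpos : 0 < N := by positivity
  set η : ℝ := ε / (N * N * C') with hη
  have hηpos : 0 < η := div_pos hε (mul_pos (mul_pos hNpos hNpos) hC'pos)
  obtain ⟨g, hg1, hg2, hg3, hg4⟩ := A5_approx hwm hw2 hηpos
  have hχg : ContDiff ℝ ∞ fun z => χ z * g z := χ.contDiff.mul hg2
  have hχgc : HasCompactSupport fun z => χ z * g z := hg1.mul_left
  refine ⟨⟨per Γ fun z => χ z * g z, per_mem hX hχg hχgc⟩, ?_⟩
  -- the difference
  set k : Pl → ℝ := fun z => (χ z * (w z - g z)) ^ 2 with hk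
  have hk0 : ∀ z, 0 ≤ k z := fun z => sq_nonneg _
  have hkle : ∀ z, k z * √(dt (m.1.1 z)) ≤ C' * (w z - g z) ^ 2 := by
    intro z
    by_cases hz : z ∈ K
    · have h1 : k z ≤ (w z - g z) ^ 2 := by
        simp only [hk]
        rw [mul_pow]
        have h2 : χ z ^ 2 ≤ 1 := pow_le_one₀ χ.nonneg χ.le_one
        nlinarith [sq_nonneg (w z - g z)]
      calc k z * √(dt (m.1.1 z)) ≤ (w z - g z) ^ 2 * C' :=
            mul_le_mul h1 (hρK z hz) (Real.sqrt_nonneg _) (sq_nonneg _)
        _ = _ := mul_comm _ _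
    · have h1 : k z = 0 := by
        simp only [hk]
        rw [hχ0 z hz]
        norm_num
      rw [h1, zero_mul]
      exact mul_nonneg hC'pos.le (sq_nonneg _)
  have hkm : AEStronglyMeasurable (fun z => k z * √(dt (m.1.1 z))) volume := by
    refine AEStronglyMeasurable.mul ?_ hρc.aestronglyMeasurable
    exact (χ.contDiff (n := 0)).continuous.aestronglyMeasurable.mul
      (hwm.sub hg2.continuous.aestronglyMeasurable) |>.pow 2
  have hkint : Integrable fun z => k z * √(dt (m.1.1 z)) := by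
    refine (hg3.const_mul C').mono' hkm (ae_of_all _ fun z => ?_)
    rw [Real.norm_of_nonneg (mul_nonneg (hk0 z) (Real.sqrt_nonneg _))]
    exact hkle z
  have hkI : ∫ z, k z * √(dt (m.1.1 z)) ≤ C' * η := by
    calc ∫ z, k z * √(dt (m.1.1 z)) ≤ ∫ z, C' * (w z - g z) ^ 2 :=
          integral_mono hkint (hg3.const_mul C') hkle
      _ = C' * ∫ z, (w z - g z) ^ 2 := integral_const_mul _ _
      _ ≤ C' * η := mul_le_mul_of_nonneg_left hg4 hC'pos.le
  have hpt : ∀ z ∈ D, (u z - per Γ (fun z => χ z * g z) z) ^ 2 * √(dt (m.1.1 z)) ≤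
      ∑ γ ∈ S, (S.card : ℝ) * (k (γ • z) * √(dt (m.1.1 z))) := by
    intro z hz
    have hzK := hDK hz
    have h1 : (1 : Γ) ∈ S := hSmem 1 z hzK (by rwa [one_smul])
    have hper : per Γ (fun z => χ z * g z) z = ∑ γ ∈ S, χ (γ • z) * g (γ • z) := by
      unfold per
      apply finsum_eq_sum_of_support_subset
      intro γ hγ
      by_contra h
      have h3 : γ • z ∉ K := fun h4 => h (hSmem γ z hzK h4)
      have h5 : χ (γ • z) = 0 := hχ0 _ h3
      exact hγ (by show χ (γ • z) * g (γ • z) = 0; rw [h5, zero_mul])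
    obtain ⟨δ, hδ, hun⟩ := hX.orbit z
    have hδ1 : ∀ γ : Γ, γ • z ∈ D → γ = 1 := fun γ hγ => by
      rw [hun γ hγ, hun 1 (show (1 : Γ) • z ∈ D by rwa [one_smul])]
    have hu' : u z = ∑ γ ∈ S, χ (γ • z) * w (γ • z) := by
      rw [Finset.sum_eq_single_of_mem 1 h1]
      · rw [one_smul, hχ1 z hz, one_mul, hw, indicator_of_mem hz]
      · intro γ _ hγ
        have h6 : γ • z ∉ D := fun h7 => hγ (hδ1 γ h7)
        rw [hw, indicator_of_notMem h6, mul_zero]
    have hdiff : u z - per Γ (fun z => χ z * g z) z =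
        ∑ γ ∈ S, χ (γ • z) * (w (γ • z) - g (γ • z)) := by
      rw [hu', hper, ← Finset.sum_sub_distrib]
      refine Finset.sum_congr rfl fun γ _ => ?_
      ring
    have hcs : (u z - per Γ (fun z => χ z * g z) z) ^ 2 ≤ (S.card : ℝ) * ∑ γ ∈ S, k (γ • z) := by
      rw [hdiff]
      exact sq_sum_le_card_mul_sum_sq
    calc (u z - per Γ (fun z => χ z * g z) z) ^ 2 * √(dt (m.1.1 z))
        ≤ ((S.card : ℝ) * ∑ γ ∈ S, k (γ • z)) * √(dt (m.1.1 z)) :=
          mul_le_mul_of_nonneg_right hcs (Real.sqrt_nonneg _)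
      _ = _ := by
          rw [mul_assoc, Finset.sum_mul, Finset.mul_sum]
  have hsumint : IntegrableOn (fun z => ∑ γ ∈ S, (S.card : ℝ) * (k (γ • z) * √(dt (m.1.1 z)))) D :=
    integrable_finsetSum _ fun γ _ => (A5_one hX m γ hkint hk0).1.const_mul _
  have hfirst : ∫ z in D, (u z - per Γ (fun z => χ z * g z) z) ^ 2 * √(dt (m.1.1 z)) ≤
      ∫ z in D, ∑ γ ∈ S, (S.card : ℝ) * (k (γ • z) * √(dt (m.1.1 z))) := by
    refine integral_mono_of_nonneg (ae_of_all _ fun z =>
      mul_nonneg (sq_nonneg _) (Real.sqrt_nonneg _)) hsumint ?_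
    exact (ae_restrict_iff' hX.meas).2 (ae_of_all _ hpt)
  refine hfirst.trans ?_
  rw [integral_finsetSum _ fun γ _ => (A5_one hX m γ hkint hk0).1.const_mul _]
  have hterm : ∀ γ ∈ S, ∫ z in D, (S.card : ℝ) * (k (γ • z) * √(dt (m.1.1 z))) ≤
      (S.card : ℝ) * (C' * η) := by
    intro γ _
    rw [integral_const_mul]
    exact mul_le_mul_of_nonneg_left ((A5_one hX m γ hkint hk0).2.trans hkI) (Nat.cast_nonneg _)
  refine (Finset.sum_le_card_nsmul S _ _ hterm).trans ?_
  rw [nsmul_eq_mul]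
  have hcN : (S.card : ℝ) ≤ N := by
    rw [hN]
    exact le_add_of_nonneg_right zero_le_one
  have hcη : 0 ≤ C' * η := mul_nonneg hC'pos.le hηpos.le
  have hc0 : (0 : ℝ) ≤ S.card := Nat.cast_nonneg _
  have e1 : (S.card : ℝ) * ((S.card : ℝ) * (C' * η)) ≤ N * (N * (C' * η)) :=
    mul_le_mul hcN (mul_le_mul_of_nonneg_right hcN hcη) (mul_nonneg hc0 hcη) hNpos.le
  refine e1.trans (le_of_eq ?_)
  exact A5_alg hNpos.ne' hC'pos.ne' hη

end BRS
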