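import Pool.Agent.LibBRS.A4
import Pool.Agent.LibBRS.A5

/-! ROW A6 : Parseval in `L²`. 35 min.

PLAN. Write `⟨f, g⟩ = ∫ z in D, f z * g z * √(dt (m.1.1 z))` (`√(dt m)` is continuous, bounded on the
bounded set `D`: `Cmp_compact hX`, so all products of functions with integrable squares are
integrable: `2 |f g| ≤ f^2 + g^2`). Bessel for `u`: `∑_{j<N} ⟨e_j, u⟩^2 ≤ ⟨u, u⟩` from
`0 ≤ ⟨u - s, u - s⟩`, `s = ∑_{j<N} ⟨e_j, u⟩ e_j`, and `h.orth` (`bF_apply`; `(oneT Γ).1 z = 1`). So the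
series is summable with sum `≤ ⟨u, u⟩`. For the other inequality: `v` from `dense` with `ε`, then
`√⟨u, u⟩ ≤ √⟨v, v⟩ + √ε`, `⟨v, v⟩ = ∑ ⟨e_j, v⟩^2` (`hasSum`) and `(∑_{j<N} ⟨e_j, v⟩^2)^{1/2} ≤
(∑_{j<N} ⟨e_j, u⟩^2)^{1/2} + (∑_{j<N} ⟨e_j, v - u⟩^2)^{1/2} ≤ (∑ ⟨e_j, u⟩^2)^{1/2} + √ε`. Or: the
projection error `⟨u - s_N(u), u - s_N(u)⟩ ≤ 2 ⟨v - s_N(v), v - s_N(v)⟩ + 2 ε → 2 ε`. -/

open MeasureTheory Set Filter Topology BGS
open scoped ContDiff ENNReal NNReal

namespace BRS

variable {Γ : Type} [Group Γ] [MulAction Γ Pl] {D : Set Pl}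

private theorem A6_bdd (hX : Surface Γ D) (m : Mt Γ D) :
    ∃ C : ℝ, 0 ≤ C ∧ ∀ z ∈ D, √(dt (m.1.1 z)) ≤ C := by
  obtain ⟨C, hC⟩ := (Cmp_compact hX).exists_bound_of_continuousOn (BGR_rho m).continuousOn
  refine ⟨max C 0, le_max_right _ _, fun z hz => ?_⟩
  have h1 := hC z (subset_closure hz)
  rw [Real.norm_of_nonneg (Real.sqrt_nonneg _)] at h1
  exact h1.trans (le_max_left _ _)

private theorem A6_int (hX : Surface Γ D) (m : Mt Γ D) {f g : Pl → ℝ}
    (hf : MemLp f 2 (volume.restrict D)) (hg : MemLp g 2 (volume.restrict D)) :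
    Integrable (fun z => f z * g z * √(dt (m.1.1 z))) (volume.restrict D) := by
  obtain ⟨C, hC0, hC⟩ := A6_bdd hX m
  have h1 : Integrable (fun z => f z * g z) (volume.restrict D) := hf.integrable_mul hg
  refine (h1.norm.const_mul C).mono'
    (h1.aestronglyMeasurable.mul (BGR_rho m).aestronglyMeasurable) ?_
  refine (ae_restrict_iff' hX.meas).2 (ae_of_all _ fun z hz => ?_)
  rw [norm_mul, Real.norm_of_nonneg (Real.sqrt_nonneg _), mul_comm]
  exact mul_le_mul_of_nonneg_right (hC z hz) (norm_nonneg _)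

private theorem A6_test (hX : Surface Γ D) {f : Pl → ℝ} (hf : Continuous f) :
    MemLp f 2 (volume.restrict D) :=
  (memLp_two_iff_integrable_sq hf.aestronglyMeasurable).2 (Cmp_int hX (hf.pow 2))

/-- the inner product -/
private noncomputable def A6_ip (m : Mt Γ D) (f g : Pl → ℝ) : ℝ :=
  ∫ z in D, f z * g z * √(dt (m.1.1 z))

private theorem A6_add (hX : Surface Γ D) (m : Mt Γ D) {f g h : Pl → ℝ}
    (hf : MemLp f 2 (volume.restrict D)) (hg : MemLp g 2 (volume.restrict D))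
    (hh : MemLp h 2 (volume.restrict D)) (c : ℝ) :
    A6_ip m h (fun z => f z + c * g z) = A6_ip m h f + c * A6_ip m h g := by
  unfold A6_ip
  rw [← integral_const_mul, ← integral_add (A6_int hX m hh hf) ((A6_int hX m hh hg).const_mul c)]
  refine integral_congr_ae (ae_of_all _ fun z => ?_)
  show h z * (f z + c * g z) * √(dt (m.1.1 z)) =
    h z * f z * √(dt (m.1.1 z)) + c * (h z * g z * √(dt (m.1.1 z)))
  ring

private theorem A6_comm (m : Mt Γ D) (f g : Pl → ℝ) : A6_ip m f g = A6_ip m g f := by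
  unfold A6_ip
  refine integral_congr_ae (ae_of_all _ fun z => ?_)
  show f z * g z * √(dt (m.1.1 z)) = g z * f z * √(dt (m.1.1 z))
  ring

private theorem A6_nonneg (m : Mt Γ D) (f : Pl → ℝ) : 0 ≤ A6_ip m f f :=
  integral_nonneg fun z => mul_nonneg (mul_self_nonneg _) (Real.sqrt_nonneg _)

private theorem A6_sq (hX : Surface Γ D) (m : Mt Γ D) {f g : Pl → ℝ}
    (hf : MemLp f 2 (volume.restrict D)) (hg : MemLp g 2 (volume.restrict D)) (c : ℝ) :
    A6_ip m (fun z => f z + c * g z) (fun z => f z + c * g z) =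
      A6_ip m f f + 2 * c * A6_ip m g f + c ^ 2 * A6_ip m g g := by
  have hfg : MemLp (fun z => f z + c * g z) 2 (volume.restrict D) := hf.add (hg.const_mul c)
  rw [A6_add hX m hf hg hfg, A6_comm m _ f, A6_comm m _ g, A6_add hX m hf hg hf,
    A6_add hX m hf hg hg, A6_comm m f g]
  ring

private theorem A6_bF (hX : Surface Γ D) (m : Mt Γ D) (u v : TestS Γ) :
    bF hX m (oneT Γ) u v = A6_ip m u.1 v.1 := by
  rw [bF_apply]
  unfold A6_ip
  refine integral_congr_ae (ae_of_all _ fun z => ?_)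
  show (oneT Γ).1 z * u.1 z * v.1 z * √(dt (m.1.1 z)) = u.1 z * v.1 z * √(dt (m.1.1 z))
  have h1 : (oneT Γ).1 z = 1 := rfl
  rw [h1, one_mul]

/-- the partial sums of the squares of the coefficients -/
private noncomputable def A6_P (m : Mt Γ D) (e : ℕ → TestS Γ) (N : ℕ) (f : Pl → ℝ) : ℝ :=
  ∑ j ∈ Finset.range N, A6_ip m (e j).1 f ^ 2

private theorem A6_bessel (hX : Surface Γ D) (m : Mt Γ D) {e : ℕ → TestS Γ} (h : IsBas hX m e)
    {f : Pl → ℝ} (hf : MemLp f 2 (volume.restrict D)) (N : ℕ) :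
    A6_P m e N f ≤ A6_ip m f f := by
  set s : TestS Γ := ∑ j ∈ Finset.range N, A6_ip m (e j).1 f • e j with hs
  have hsL : MemLp s.1 2 (volume.restrict D) := A6_test hX s.2.1.continuous
  have h0 := A6_nonneg m (fun z => f z + (-1) * s.1 z)
  rw [A6_sq hX m hf hsL] at h0
  have hss : A6_ip m s.1 s.1 = A6_P m e N f := by
    rw [← A6_bF hX, hs]
    simp only [map_sum, map_smul, LinearMap.sum_apply, LinearMap.smul_apply, smul_eq_mul, h.orth]
    unfold A6_P
    refine Finset.sum_congr rfl fun i hi => ?_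
    rw [Finset.sum_eq_single_of_mem i hi]
    · rw [if_pos rfl, mul_one, pow_two]
    · intro j _ hj
      simp [hj, Ne.symm hj]
  have hsf : A6_ip m s.1 f = A6_P m e N f := by
    have hpt : ∀ z, s.1 z = ∑ j ∈ Finset.range N, A6_ip m (e j).1 f * (e j).1 z := by
      intro z
      rw [hs, Submodule.coe_sum, Finset.sum_apply]
      rfl
    unfold A6_P
    have e1 : A6_ip m s.1 f = ∫ z in D, ∑ j ∈ Finset.range N,
        A6_ip m (e j).1 f * ((e j).1 z * f z * √(dt (m.1.1 z))) := by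
      unfold A6_ip
      refine integral_congr_ae (ae_of_all _ fun z => ?_)
      show s.1 z * f z * √(dt (m.1.1 z)) = _
      rw [hpt z, Finset.sum_mul, Finset.sum_mul]
      refine Finset.sum_congr rfl fun j _ => ?_
      unfold A6_ip
      ring
    rw [e1, integral_finsetSum _ fun j _ =>
      (A6_int hX m (A6_test hX (e j).2.1.continuous) hf).const_mul _]
    refine Finset.sum_congr rfl fun j _ => ?_
    rw [integral_const_mul, pow_two]
    rfl
  rw [hss, hsf] at h0
  nlinarith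

theorem parseval (hX : Surface Γ D) (m : Mt Γ D) {e : ℕ → TestS Γ} (h : IsBas hX m e)
    {u : Pl → ℝ} (hu : AEStronglyMeasurable u (volume.restrict D))
    (h2 : IntegrableOn (fun z => u z ^ 2) D) :
    HasSum (fun j => (∫ z in D, (e j).1 z * u z * √(dt (m.1.1 z))) ^ 2)
      (∫ z in D, u z ^ 2 * √(dt (m.1.1 z))) := by
  have huL : MemLp u 2 (volume.restrict D) := (memLp_two_iff_integrable_sq hu).2 h2
  have hQ : ∫ z in D, u z ^ 2 * √(dt (m.1.1 z)) = A6_ip m u u := by
    unfold A6_ip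
    refine integral_congr_ae (ae_of_all _ fun z => ?_)
    show u z ^ 2 * √(dt (m.1.1 z)) = u z * u z * √(dt (m.1.1 z))
    ring
  rw [hQ]
  rw [hasSum_iff_tendsto_nat_of_nonneg (fun j => sq_nonneg _)]
  rw [Metric.tendsto_atTop]
  intro ε hε
  obtain ⟨v, hv⟩ := dense hX m hu h2 (show 0 < ε / 4 by linarith)
  have hvL : MemLp v.1 2 (volume.restrict D) := A6_test hX v.2.1.continuous
  have hdL : MemLp (fun z => u z + (-1) * v.1 z) 2 (volume.restrict D) :=
    huL.add (hvL.const_mul (-1))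
  set d : Pl → ℝ := fun z => u z + (-1) * v.1 z with hd
  have hdd : A6_ip m d d ≤ ε / 4 := by
    refine le_trans (le_of_eq ?_) hv
    unfold A6_ip
    refine integral_congr_ae (ae_of_all _ fun z => ?_)
    show (u z + (-1) * v.1 z) * (u z + (-1) * v.1 z) * √(dt (m.1.1 z)) =
      (u z - v.1 z) ^ 2 * √(dt (m.1.1 z))
    ring
  have hsum := hasSum hX m h v
  simp only [A6_bF] at hsum
  rw [hasSum_iff_tendsto_nat_of_nonneg (fun j => sq_nonneg _), Metric.tendsto_atTop] at hsum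
  obtain ⟨N0, hN0⟩ := hsum (ε / 4) (by linarith)
  refine ⟨N0, fun N hN => ?_⟩
  have h3 := hN0 N hN
  rw [Real.dist_eq] at h3 ⊢
  have hPu : ∑ j ∈ Finset.range N, (∫ z in D, (e j).1 z * u z * √(dt (m.1.1 z))) ^ 2 =
      A6_P m e N u := rfl
  have hPv : ∑ j ∈ Finset.range N, A6_ip m (e j).1 v.1 ^ 2 = A6_P m e N v.1 := rfl
  rw [hPu]
  rw [hPv] at h3
  have hB := A6_bessel hX m h huL N
  have hue : u = fun z => v.1 z + 1 * d z := by
    funext z
    simp only [hd]
    ring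
  -- the parallelogram inequality
  have hminus := A6_bessel hX m h (f := fun z => v.1 z + (-1) * d z)
    (hvL.add (hdL.const_mul (-1))) N
  have hPp : A6_P m e N u = ∑ j ∈ Finset.range N,
      (A6_ip m (e j).1 v.1 + A6_ip m (e j).1 d) ^ 2 := by
    unfold A6_P
    refine Finset.sum_congr rfl fun j _ => ?_
    rw [hue, A6_add hX m hvL hdL (A6_test hX (e j).2.1.continuous), one_mul]
  have hPm : A6_P m e N (fun z => v.1 z + (-1) * d z) = ∑ j ∈ Finset.range N,
      (A6_ip m (e j).1 v.1 - A6_ip m (e j).1 d) ^ 2 := by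
    unfold A6_P
    refine Finset.sum_congr rfl fun j _ => ?_
    rw [A6_add hX m hvL hdL (A6_test hX (e j).2.1.continuous)]
    ring
  have hPsum : A6_P m e N u + A6_P m e N (fun z => v.1 z + (-1) * d z) =
      2 * A6_P m e N v.1 + 2 * A6_P m e N d := by
    rw [hPp, hPm]
    unfold A6_P
    rw [← Finset.sum_add_distrib, Finset.mul_sum, Finset.mul_sum, ← Finset.sum_add_distrib]
    refine Finset.sum_congr rfl fun j _ => ?_
    ring
  have hQp : A6_ip m u u = A6_ip m v.1 v.1 + 2 * A6_ip m d v.1 + A6_ip m d d := by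
    have h5 := A6_sq hX m hvL hdL 1
    rw [← hue] at h5
    rw [h5]
    ring
  have hQm := A6_sq hX m hvL hdL (-1)
  have hPd : 0 ≤ A6_P m e N d := Finset.sum_nonneg fun j _ => sq_nonneg _
  rw [abs_lt] at h3 ⊢
  constructor <;> linarith [h3.1, h3.2]

end BRS
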