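import Pool.Agent.LibBRS.Defs
import Pool.Agent.LibBGR.Opn

/-! ROW B1 : the levels grow at least linearly. 30 min.

PLAN. Copy the proof of `BGS.ev_large` (LibBGS/Disc.lean): with `Bd = A1 / a2 * P * (2 * R) ^ 2` it shows
for EVERY `N ≥ 1` (not only for a large one), every `k ≥ N * N` and every admissible `c` in the
definition of `ev Γ D m.1.1 k` that `1 ≤ Bd / N ^ 2 * c`. So `ENNReal.ofReal (N ^ 2 / Bd) ≤
ev Γ D m.1.1 k` for `N * N ≤ k`. With `N = Nat.sqrt k ≥ 1` and `k ≤ 4 N ^ 2` (for `k ≥ 1`):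
`x m k = (ev k / ofReal (4 π)).toReal ≥ k / (16 π Bd)` (`lvl_ne_top hX m k`). -/

open MeasureTheory Set Filter Topology BGS
open scoped ContDiff ENNReal NNReal

namespace BRS

variable {Γ : Type} [Group Γ] [MulAction Γ Pl] {D : Set Pl}

/-- Quantitative form of `BGS.ev_large`. -/
theorem B1_ev (hX : Surface Γ D) (m : Mt Γ D) : ∃ Bd : ℝ, 0 < Bd ∧ ∀ N : ℕ, 0 < N →
    ∀ k, N * N ≤ k → ENNReal.ofReal ((N : ℝ) ^ 2 / Bd) ≤ ev Γ D m.1.1 k := by
  obtain ⟨R, hR, hDR⟩ : ∃ R : ℝ, 0 < R ∧ D ⊆ Disc_sq (-R) (-R) (2 * R) := by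
    obtain ⟨R, hR⟩ := hX.bdd.subset_closedBall (0 : Pl)
    refine ⟨max R 0 + 1, by positivity, fun z hz => ?_⟩
    have h1 := hR hz
    rw [mem_closedBall_zero_iff, Prod.norm_def, max_le_iff, Real.norm_eq_abs, Real.norm_eq_abs,
      abs_le, abs_le] at h1
    have h2 := le_max_left R 0
    exact ⟨⟨by linarith [h1.1.1], by linarith [h1.1.2]⟩, ⟨by linarith [h1.2.1],
      by linarith [h1.2.2]⟩⟩
  set K : Set Pl := Icc (-R) (-R + 2 * R) ×ˢ Icc (-R) (-R + 2 * R) with hK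
  have hKc : IsCompact K := isCompact_Icc.prod isCompact_Icc
  have hKne : K.Nonempty := ⟨(0, 0), by
    constructor <;> constructor <;> simp <;> linarith⟩
  have hm : Continuous m.1.1 := m.1.2.continuous
  have hsq : Continuous fun z => √(dt (m.1.1 z)) :=
    Real.continuous_sqrt.comp (Cmp_dt_cont.comp hm)
  have hEG : ∀ z, 0 < (m.1.1 z).1 + (m.1.1 z).2.2 := by
    intro z
    have h := m.2.pos z
    have h3 : 0 < (m.1.1 z).2.2 := by
      have h4 := h.2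
      unfold dt at h4
      by_contra hc
      push Not at hc
      nlinarith [mul_nonneg h.1.le (neg_nonneg.2 hc), sq_nonneg (m.1.1 z).2.1]
    linarith [h.1]
  have hlow : Continuous fun z => √(dt (m.1.1 z)) / ((m.1.1 z).1 + (m.1.1 z).2.2) :=
    hsq.div ((continuous_fst.comp hm).add (continuous_snd.comp (continuous_snd.comp hm)))
      fun z => (hEG z).ne'
  obtain ⟨z1, _, hz1⟩ := hKc.exists_isMaxOn hKne hsq.continuousOn
  obtain ⟨z2, _, hz2⟩ := hKc.exists_isMinOn hKne hlow.continuousOn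
  set A1 : ℝ := √(dt (m.1.1 z1)) with hA1
  set a2 : ℝ := √(dt (m.1.1 z2)) / ((m.1.1 z2).1 + (m.1.1 z2).2.2) with ha2
  have hA1pos : 0 < A1 := Real.sqrt_pos.2 (m.2.pos z1).2
  have ha2pos : 0 < a2 := div_pos (Real.sqrt_pos.2 (m.2.pos z2).2) (hEG z2)
  have hbd : Bornology.IsBounded (Disc_sq (-R) (-R) (2 * R)) :=
    hKc.isBounded.subset (Disc_sq_sub _ _ _)
  obtain ⟨P, hP, hcov⟩ := en_cover hX m _ hbd (Disc_sq_meas (-R) (-R) (2 * R))
  refine ⟨A1 / a2 * P * (2 * R) ^ 2, by positivity, fun N hN0 k hk => ?_⟩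
  have hN' : (0 : ℝ) < N := by exact_mod_cast hN0
  set r : ℝ := 2 * R / N with hr
  have hrpos : 0 < r := by positivity
  have hNr : (N : ℝ) * r = 2 * R := by rw [hr]; field_simp
  unfold ev
  refine le_iInf₂ fun c hc => ?_
  obtain ⟨V, hV, hVc⟩ := hc
  obtain ⟨u, huV, hu0, hmean⟩ := Disc_count V
    (fun p : Fin N × Fin N => Disc_sq (-R + (p.1 : ℕ) * r) (-R + (p.2 : ℕ) * r) r)
    (by rw [hV, Fintype.card_prod, Fintype.card_fin]; omega)
    (fun u hu p => Disc_intble (hVc u hu).1.1.continuous _ _ _)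
  obtain ⟨hT, hen⟩ := hVc u huV
  have hpos := l2_pos hX m hT hu0
  have hp := Disc_poin hT.1 (-R) (-R) hrpos N hmean
  rw [hNr] at hp
  set Q : Set Pl := Disc_sq (-R) (-R) (2 * R) with hQ
  have hQK : Q ⊆ K := Disc_sq_sub _ _ _
  have s1 : l2 D m.1.1 u ≤ A1 * ∫ z in Q, u z ^ 2 := by
    rw [← integral_const_mul]
    calc l2 D m.1.1 u ≤ ∫ z in Q, u z ^ 2 * √(dt (m.1.1 z)) :=
          setIntegral_mono_set (Disc_intble (Cmp_l2_cont m hT.1) _ _ _)
            (Eventually.of_forall fun z => mul_nonneg (sq_nonneg _) (Real.sqrt_nonneg _))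
            hDR.eventuallyLE
      _ ≤ ∫ z in Q, A1 * u z ^ 2 := by
          refine setIntegral_mono_on (Disc_intble (Cmp_l2_cont m hT.1) _ _ _)
            (Disc_intble (continuous_const.mul (hT.1.continuous.pow 2)) _ _ _)
            (Disc_sq_meas _ _ _) fun z hz => ?_
          rw [mul_comm]
          exact mul_le_mul_of_nonneg_right (hz1 (hQK hz)) (sq_nonneg _)
  have s2 : a2 * ∫ z in Q, (dx u z ^ 2 + dy u z ^ 2) ≤ P * en D m.1.1 u := by
    rw [← integral_const_mul]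
    refine le_trans ?_ (hcov u hT)
    refine setIntegral_mono_on
      (Disc_intble (continuous_const.mul (((Cmp_dx hT.1).pow 2).add ((Cmp_dy hT.1).pow 2))) _ _ _)
      (Disc_intble (Cmp_wf_cont m hT.1) _ _ _) (Disc_sq_meas _ _ _) fun z hz => ?_
    refine le_trans ?_ (Disc_wf (m.2.pos z).1 (m.2.pos z).2 _ _)
    exact mul_le_mul_of_nonneg_right (hz2 (hQK hz)) (by positivity)
  have s3 : l2 D m.1.1 u ≤ A1 / a2 * P * r ^ 2 * (c * l2 D m.1.1 u) := by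
    have hI : ∫ z in Q, (dx u z ^ 2 + dy u z ^ 2) ≤ P * (c * l2 D m.1.1 u) / a2 := by
      rw [le_div_iff₀ ha2pos, mul_comm]
      exact s2.trans (mul_le_mul_of_nonneg_left hen hP.le)
    calc l2 D m.1.1 u ≤ A1 * ∫ z in Q, u z ^ 2 := s1
      _ ≤ A1 * (r ^ 2 * ∫ z in Q, (dx u z ^ 2 + dy u z ^ 2)) :=
          mul_le_mul_of_nonneg_left hp hA1pos.le
      _ ≤ A1 * (r ^ 2 * (P * (c * l2 D m.1.1 u) / a2)) :=
          mul_le_mul_of_nonneg_left (mul_le_mul_of_nonneg_left hI (sq_nonneg _)) hA1pos.le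
      _ = A1 / a2 * P * r ^ 2 * (c * l2 D m.1.1 u) := by ring
  have s4 : 1 ≤ A1 / a2 * P * r ^ 2 * c := by
    by_contra hlt
    push Not at hlt
    have h5 := mul_lt_mul_of_pos_right hlt hpos
    rw [one_mul] at h5
    have h6 : A1 / a2 * P * r ^ 2 * (c * l2 D m.1.1 u)
        = A1 / a2 * P * r ^ 2 * c * l2 D m.1.1 u := by ring
    linarith
  have hB : 0 < A1 / a2 * P * (2 * R) ^ 2 := by positivity
  have h8 : A1 / a2 * P * r ^ 2 * c = A1 / a2 * P * (2 * R) ^ 2 * c / (N : ℝ) ^ 2 := by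
    rw [hr]; ring
  rw [h8, le_div_iff₀ (by positivity), one_mul] at s4
  have h9 : (N : ℝ) ^ 2 / (A1 / a2 * P * (2 * R) ^ 2) ≤ c := by
    rw [div_le_iff₀ hB, mul_comm]
    exact s4
  calc ENNReal.ofReal ((N : ℝ) ^ 2 / (A1 / a2 * P * (2 * R) ^ 2)) ≤ ENNReal.ofReal (c : ℝ) :=
        ENNReal.ofReal_le_ofReal h9
    _ = (c : ℝ≥0∞) := ENNReal.ofReal_coe_nnreal

theorem growth (hX : Surface Γ D) (m : Mt Γ D) : ∃ c : ℝ, 0 < c ∧ ∀ k : ℕ, c * k ≤ x m k := by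
  obtain ⟨Bd, hBd, hev⟩ := B1_ev hX m
  have hpi := Real.pi_pos
  refine ⟨1 / (16 * Real.pi * Bd), by positivity, fun k => ?_⟩
  rcases Nat.eq_zero_or_pos k with rfl | hk
  · rw [Nat.cast_zero, mul_zero]
    exact ENNReal.toReal_nonneg
  have hN0 : 0 < Nat.sqrt k := Nat.sqrt_pos.2 hk
  have hle : Nat.sqrt k * Nat.sqrt k ≤ k := Nat.sqrt_le k
  have hlt : k < (Nat.sqrt k + 1) * (Nat.sqrt k + 1) := Nat.lt_succ_sqrt k
  have h4 : (k : ℝ) ≤ 4 * (Nat.sqrt k : ℝ) ^ 2 := by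
    have h5 : k ≤ 4 * Nat.sqrt k ^ 2 := by nlinarith
    exact_mod_cast h5
  have h1 := hev (Nat.sqrt k) hN0 k hle
  have h2 : ENNReal.ofReal ((Nat.sqrt k : ℝ) ^ 2 / Bd / (4 * Real.pi)) ≤ lvl m k := by
    rw [ENNReal.ofReal_div_of_pos (by positivity)]
    exact ENNReal.div_le_div_right h1 _
  have h3 : (Nat.sqrt k : ℝ) ^ 2 / Bd / (4 * Real.pi) ≤ x m k :=
    (ENNReal.ofReal_le_iff_le_toReal (lvl_ne_top hX m k)).1 h2
  refine le_trans ?_ h3
  have h6 : (Nat.sqrt k : ℝ) ^ 2 / Bd / (4 * Real.pi) =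
      1 / (16 * Real.pi * Bd) * (4 * (Nat.sqrt k : ℝ) ^ 2) := by
    field_simp
    ring
  rw [h6]
  exact mul_le_mul_of_nonneg_left h4 (by positivity)

end BRS
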