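import Pool.Agent.LibBRS.A1

/-! ROW A2 : the next eigenfunction, and the whole basis. 45 min.

PLAN. `eig_next`: take `W` from `eig_fam hX m (n + 1)`. Let `J = {j : Fin (n+1) | mu0 j = mu0 n}`,
`I = {i : Fin n | mu0 i = mu0 n}`: `I` is `J` without `n`, so `card J = card I + 1`. The linear map
`(J → ℝ) → (I → ℝ)`, `c ↦ (aF (U i) (∑ c_j W j))_i` has a nonzero kernel element `c`
(`LinearMap.ker_ne_bot_of_finrank_lt` or `Module.exists_nontrivial...`). `V0 = ∑_{j ∈ J} c_j W j`,
`aF V0 V0 = ∑ c_j^2 > 0`, `V = (√(aF V0 V0))⁻¹ • V0`. `IsEig` for `(mu0 n)⁻¹`: sums and multiples of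
functions with the same eigenvalue (linearity of `aF hX m`, `bF hX m _` in the first argument;
for `j ∈ J` the eigenvalue is `(mu0 j)⁻¹ = (mu0 n)⁻¹`). For `i ∉ I` : `aF (U i) V = (mu0 i)⁻¹ b (U i) V`
and `aF V (U i) = (mu0 n)⁻¹ b V (U i)`; symmetry (`(pair0 hX m).asym`, `.bsym`) gives
`(mu0 i - mu0 n) * aF (U i) V = 0`.
`exists_bas`: build `U : ℕ → TestS Γ` with `IsEig (mu0 n)⁻¹ (U n)` and `aF (U i) (U j) = if i = j ..`
by recursion (`Nat.rec` on the type of good families `Fin n → TestS Γ`, `Fin.snoc`, and the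
coherence of the families; or any other way). Put `e 0 = oneT Γ`, `e (j+1) = (√(mu0 j))⁻¹ • U j`.
`x_zero`, `x_succ`; `bF (U i) (U j) = mu0 i * aF (U i) (U j)`, `bF (U j) (oneT Γ) = mu0 j * aF (U j)
(oneT Γ) = 0` (`(pair0 hX m).ae`, `.asym`), `bF (oneT Γ) (oneT Γ) = ∫ z in D, √(dt m) = 1`
(`m.2.area`, `bF_apply`). `IsEig` of `oneT Γ` for the eigenvalue `0`: `(pair0 hX m).ae`. -/

open MeasureTheory Set Filter Topology BGS
open scoped ContDiff ENNReal NNReal

namespace BRS

section A2abs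

variable {E : Type} [AddCommGroup E] [Module ℝ E] {a b : LinearMap.BilinForm ℝ E} {o : E}

private theorem A2_next (P : IsPair a b o) (μ : ℕ → ℝ) (hμ : ∀ k, 0 < μ k) {n : ℕ}
    (U : Fin n → E) (hUe : ∀ i : Fin n, ∀ h, a (U i) h = (μ i)⁻¹ * b (U i) h)
    (W : Fin (n + 1) → E) (hWe : ∀ i : Fin (n + 1), ∀ h, a (W i) h = (μ i)⁻¹ * b (W i) h)
    (hWo : ∀ i j : Fin (n + 1), a (W i) (W j) = if i = j then 1 else 0) :
    ∃ V : E, (∀ h, a V h = (μ n)⁻¹ * b V h) ∧ a V V = 1 ∧ ∀ i, a (U i) V = 0 := by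
  classical
  let J := {j : Fin (n + 1) // μ j = μ n}
  let I := {i : Fin n // μ i = μ n}
  have hcard : Fintype.card I < Fintype.card J := by
    let f : I → J := fun i => ⟨i.1.castSucc, i.2⟩
    have hf : Function.Injective f := by
      intro i i' h
      have h1 : i.1.castSucc = i'.1.castSucc := congrArg Subtype.val h
      exact Subtype.ext (Fin.castSucc_injective _ h1)
    refine Fintype.card_lt_of_injective_of_notMem f hf (b := ⟨Fin.last n, rfl⟩) ?_
    rintro ⟨i, hi⟩
    have h1 : i.1.castSucc = Fin.last n := congrArg Subtype.val hi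
    exact (Fin.castSucc_lt_last i.1).ne h1
  let T : (J → ℝ) →ₗ[ℝ] (I → ℝ) :=
    { toFun := fun c i => ∑ j, c j * a (U i.1) (W j.1)
      map_add' := by
        intro c c'
        funext i
        simp only [Pi.add_apply, add_mul, Finset.sum_add_distrib]
      map_smul' := by
        intro r c
        funext i
        simp only [Pi.smul_apply, smul_eq_mul, RingHom.id_apply, Finset.mul_sum, mul_assoc] }
  have hker : LinearMap.ker T ≠ ⊥ := by
    apply LinearMap.ker_ne_bot_of_finrank_lt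
    rw [Module.finrank_fintype_fun_eq_card, Module.finrank_fintype_fun_eq_card]
    exact hcard
  obtain ⟨c, hc, hc0⟩ := Submodule.exists_mem_ne_zero_of_ne_bot hker
  have hTc : ∀ i : I, ∑ j, c j * a (U i.1) (W j.1) = 0 := fun i => congrFun (LinearMap.mem_ker.1 hc) i
  set V0 : E := ∑ j : J, c j • W j.1 with hV0
  have hV0e : ∀ h, a V0 h = (μ n)⁻¹ * b V0 h := by
    intro h
    rw [hV0]
    simp only [map_sum, LinearMap.sum_apply, map_smul, LinearMap.smul_apply, smul_eq_mul,
      Finset.mul_sum]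
    refine Finset.sum_congr rfl fun j _ => ?_
    rw [hWe, j.2]
    ring
  have hpos : 0 < a V0 V0 := by
    have h1 : a V0 V0 = ∑ j : J, c j ^ 2 := by
      rw [hV0]
      simp only [map_sum, LinearMap.sum_apply, map_smul, LinearMap.smul_apply, smul_eq_mul, hWo]
      refine Finset.sum_congr rfl fun j _ => ?_
      rw [Finset.sum_eq_single j]
      · rw [if_pos rfl]
        ring
      · intro i _ hij
        rw [if_neg fun h => hij (Subtype.ext h)]
        ring
      · intro h
        exact absurd (Finset.mem_univ _) h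
    rw [h1]
    obtain ⟨j, hj⟩ := Function.ne_iff.1 hc0
    exact Finset.sum_pos' (fun j _ => sq_nonneg _) ⟨j, Finset.mem_univ _, by
      have : c j ≠ 0 := hj
      positivity⟩
  obtain ⟨s, hs0, hss⟩ : ∃ s : ℝ, s ≠ 0 ∧ s * s = a V0 V0 :=
    ⟨√(a V0 V0), (Real.sqrt_pos.2 hpos).ne', Real.mul_self_sqrt hpos.le⟩
  have hort : ∀ i, a (U i) V0 = 0 := by
    intro i
    by_cases hi : μ i = μ n
    · have h1 := hTc ⟨i, hi⟩
      rw [hV0]
      simp only [map_sum, map_smul, smul_eq_mul]
      exact h1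
    · have h1 := hUe i V0
      have h2 := hV0e (U i)
      rw [P.asym, P.bsym] at h2
      have h3 : ((μ i)⁻¹ - (μ n)⁻¹) * b (U i) V0 = 0 := by
        rw [sub_mul, ← h1, ← h2, sub_self]
      have h4 : (μ i)⁻¹ - (μ n)⁻¹ ≠ 0 := by
        intro h
        exact hi (inv_injective (sub_eq_zero.1 h))
      rw [h1, (mul_eq_zero.1 h3).resolve_left h4, mul_zero]
  refine ⟨s⁻¹ • V0, ?_, ?_, ?_⟩
  · intro h
    rw [map_smul, map_smul, LinearMap.smul_apply, LinearMap.smul_apply, smul_eq_mul, smul_eq_mul,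
      hV0e]
    ring
  · rw [map_smul, map_smul, LinearMap.smul_apply, smul_eq_mul, smul_eq_mul, ← hss]
    field_simp
  · intro i
    rw [map_smul, hort, smul_zero]

private theorem A2_build {α : Type} [Inhabited α] (R : ℕ → (ℕ → α) → α → Prop)
    (hstep : ∀ n p, (∀ i < n, R i p (p i)) → ∃ V, R n p V)
    (hcongr : ∀ n p p' V, (∀ i < n, p i = p' i) → R n p V → R n p' V) :
    ∃ U : ℕ → α, ∀ n, R n U (U n) := by
  classical
  let ext : (n : ℕ) → (∀ i, i < n → α) → ℕ → α := fun n g i => if hi : i < n then g i hi else default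
  let f : ∀ n : ℕ, (∀ i, i < n → α) → α := fun n g =>
    if h : ∃ V, R n (ext n g) V then h.choose else default
  let U : ℕ → α := WellFounded.fix Nat.lt_wfRel.wf f
  have hU : ∀ n, U n = f n (fun i _ => U i) := fun n => WellFounded.fix_eq _ _ _
  refine ⟨U, fun n => ?_⟩
  induction n using Nat.strong_induction_on with
  | _ n ih =>
    have hext : ∀ i < n, ext n (fun i _ => U i) i = U i := fun i hi => dif_pos hi
    have h1 : ∃ V, R n (ext n (fun i _ => U i)) V := by
      apply hstep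
      intro i hi
      rw [hext i hi]
      exact hcongr i U _ _ (fun k hk => (hext k (hk.trans hi)).symm) (ih i hi)
    have h2 : U n = h1.choose := by
      rw [hU n]
      exact dif_pos h1
    have h3 := h1.choose_spec
    rw [← h2] at h3
    exact hcongr n _ U _ hext h3

end A2abs

variable {Γ : Type} [Group Γ] [MulAction Γ Pl] {D : Set Pl}

theorem eig_next (hX : Surface Γ D) (m : Mt Γ D) {n : ℕ} {U : Fin n → TestS Γ}
    (hU : Fam hX m U) : ∃ V : TestS Γ, QR.IsEig hX m (oneT Γ) (mu0 hX m n)⁻¹ V ∧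
      aF hX m V V = 1 ∧ ∀ i, aF hX m (U i) V = 0 := by
  obtain ⟨W, hW⟩ := eig_fam hX m (n + 1)
  exact A2_next (pair0 hX m) (mu0 hX m) (mu0_pos hX m) U hU.eig W hW.eig hW.orth

theorem exists_bas (hX : Surface Γ D) (m : Mt Γ D) : ∃ e : ℕ → TestS Γ, IsBas hX m e := by
  have P := pair0 hX m
  obtain ⟨U, hU⟩ := A2_build (α := TestS Γ) (fun n p V => QR.IsEig hX m (oneT Γ) (mu0 hX m n)⁻¹ V ∧
      aF hX m V V = 1 ∧ ∀ i < n, aF hX m (p i) V = 0)
    (by
      intro n p hp
      have hF : Fam hX m (fun i : Fin n => p i) := by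
        refine ⟨fun i => (hp i i.2).1, fun i j => ?_⟩
        rcases lt_trichotomy (i : ℕ) j with h | h | h
        · rw [(hp j j.2).2.2 i h, if_neg fun h' => h.ne (congrArg Fin.val h')]
        · have h' : i = j := Fin.ext h
          subst h'
          rw [(hp i i.2).2.1, if_pos rfl]
        · rw [P.asym, (hp i i.2).2.2 j h, if_neg fun h' => h.ne (congrArg Fin.val h').symm]
      obtain ⟨V, h1, h2, h3⟩ := eig_next hX m hF
      exact ⟨V, h1, h2, fun i hi => h3 ⟨i, hi⟩⟩)
    (by
      intro n p p' V hpp h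
      exact ⟨h.1, h.2.1, fun i hi => by rw [← hpp i hi]; exact h.2.2 i hi⟩)
  have hμ := mu0_pos hX m
  have hb : ∀ i j, bF hX m (oneT Γ) (U i) (U j) = if i = j then mu0 hX m i else 0 := by
    intro i j
    have h1 := (hU i).1 (U j)
    have h2 : bF hX m (oneT Γ) (U i) (U j) = mu0 hX m i * aF hX m (U i) (U j) := by
      rw [h1, ← mul_assoc, mul_inv_cancel₀ (hμ i).ne', one_mul]
    rw [h2]
    rcases lt_trichotomy i j with h | h | h
    · rw [(hU j).2.2 i h, if_neg h.ne, mul_zero]
    · subst h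
      rw [(hU i).2.1, if_pos rfl, mul_one]
    · rw [P.asym, (hU i).2.2 j h, if_neg h.ne', mul_zero]
  have hbo : ∀ j, bF hX m (oneT Γ) (U j) (oneT Γ) = 0 := by
    intro j
    have h1 := (hU j).1 (oneT Γ)
    rw [P.asym, P.ae] at h1
    exact (mul_eq_zero.1 h1.symm).resolve_left (inv_pos.2 (hμ j)).ne'
  have hoo : bF hX m (oneT Γ) (oneT Γ) (oneT Γ) = 1 := by
    rw [bF_apply, ← m.2.area]
    refine integral_congr_ae (ae_of_all _ fun z => ?_)
    show (1 : ℝ) * 1 * 1 * √(dt (m.1.1 z)) = √(dt (m.1.1 z))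
    ring
  let e : ℕ → TestS Γ := fun j => Nat.casesOn j (oneT Γ) fun j => (√(mu0 hX m j))⁻¹ • U j
  have e0 : e 0 = oneT Γ := rfl
  have es : ∀ j, e (j + 1) = (√(mu0 hX m j))⁻¹ • U j := fun j => rfl
  refine ⟨e, ?_, ?_⟩
  · intro j
    cases j with
    | zero =>
      intro h
      rw [e0, P.ae, x_zero hX]
      ring
    | succ j =>
      intro h
      rw [es, x_succ hX m j, map_smul, map_smul, LinearMap.smul_apply, LinearMap.smul_apply,
        smul_eq_mul, smul_eq_mul, (hU j).1 h]
      ring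
  · intro i j
    cases i with
    | zero =>
      cases j with
      | zero => rw [e0, hoo, if_pos rfl]
      | succ j =>
        rw [e0, es, map_smul, P.bsym, hbo, smul_zero, if_neg (Nat.succ_ne_zero j).symm]
    | succ i =>
      cases j with
      | zero =>
        rw [e0, es, map_smul, LinearMap.smul_apply, hbo, smul_zero, if_neg (Nat.succ_ne_zero i)]
      | succ j =>
        rw [es, es, map_smul, map_smul, LinearMap.smul_apply, smul_eq_mul, smul_eq_mul, hb]
        by_cases hij : i = j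
        · subst hij
          rw [if_pos rfl, if_pos rfl]
          have h3 := Real.mul_self_sqrt (hμ i).le
          have h2 : √(mu0 hX m i) ≠ 0 := (Real.sqrt_pos.2 (hμ i)).ne'
          calc (√(mu0 hX m i))⁻¹ * ((√(mu0 hX m i))⁻¹ * mu0 hX m i) =
              (√(mu0 hX m i))⁻¹ * ((√(mu0 hX m i))⁻¹ * (√(mu0 hX m i) * √(mu0 hX m i))) := by
                rw [h3]
            _ = 1 := by field_simp
        · rw [if_neg hij, if_neg fun h => hij (Nat.succ_injective h)]
          ring

end BRS
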