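import Pool.Agent.LibBRS.Defs

/-! ROW A1 : finitely many eigenfunctions. 40 min.

PLAN. `P := pair0 hX m`, `h1 := lam1 hX m`, `hf k : lam .. k ≠ ⊤` (`expT_top hX m 0 k` with
`expT_zero`), `h0 := mu0_tendsto hX m`. Write `a = aF hX m`, `b = bF hX m (oneT Γ)`.
For `k : ℕ` let `w k : Fin n → TestS Γ` be `BGS.frame P h1 hf n (ε := 1 / (k + 1))`: it is
`LibQR35.Fr a b (oneT Γ) (1 / (k + 1)) (w k)`. `compact_seq P h1 hf h0 w (A := 1) (B := mu0 hX m 0)`
(`mu_anti h1` for `b (w i) (w i) ≤ mu i ≤ mu 0`) gives `s`. For each `i` apply `QR.limit_eig hX m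
(oneT Γ) _ (mu0 hX m i)⁻¹ (fun k => w (s k) i)`: `hc` from `compact_seq`, `he` with `C = 1`, `hl`:
`a (w i) f - (mu i)⁻¹ b (w i) f = -(mu i)⁻¹ (b (w i) f - mu i a (w i) f)`, whose square is at most
`(mu i)⁻² * 4 * (n δ) * (n δ + mu 0) * a f f → 0` with `δ = 1 / (s k + 1)` (`LibQR35.near_eigen`).
`choose U`. Then `a (U i) (U j) = (mu i)⁻¹ b (U i) (U j)`, and `b (U i) (U j) = lim b (w i) (w j)`
(Cauchy-Schwarz `LinearMap.BilinForm.apply_mul_apply_le_of_forall_zero_le b` for
`b (w i - U i) (w j)` and `b (U i) (w j - U j)`), which is `0` for `i ≠ j` and `mu i` for `i = j`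
(`Fr.diag`, `Fr.lo`, `Fr.up`). `mu0_pos hX m i`. -/

open MeasureTheory Set Filter Topology BGS
open scoped ContDiff ENNReal NNReal

namespace BRS

variable {Γ : Type} [Group Γ] [MulAction Γ Pl] {D : Set Pl}

private theorem A1_cs {E : Type} [AddCommGroup E] [Module ℝ E] {a b : LinearMap.BilinForm ℝ E}
    {e : E} (P : IsPair a b e) (x y : E) : |b x y| ≤ √(b x x * b y y) := by
  have hb : ∀ u, 0 ≤ b u u := by
    intro u
    by_cases hu : u = 0
    · rw [hu, map_zero]
    · exact (P.bpos u hu).le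
  have h := LinearMap.BilinForm.apply_mul_apply_le_of_forall_zero_le b hb x y
  rw [P.bsym y x, ← pow_two] at h
  exact Real.abs_le_sqrt h

private theorem A1_lim {E : Type} [AddCommGroup E] [Module ℝ E] {a b : LinearMap.BilinForm ℝ E}
    {e : E} (P : IsPair a b e) (x y : ℕ → E) (X Y : E)
    (hx : Tendsto (fun k => b (x k - X) (x k - X)) atTop (𝓝 0))
    (hy : Tendsto (fun k => b (y k - Y) (y k - Y)) atTop (𝓝 0)) :
    Tendsto (fun k => b (x k) (y k)) atTop (𝓝 (b X Y)) := by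
  have e1 : ∀ k, b (x k) (y k) = b (x k - X) (y k - Y) + b (x k - X) Y + b X (y k - Y) + b X Y := by
    intro k
    simp only [map_sub, LinearMap.sub_apply]
    ring
  have s1 : Tendsto (fun k => b (x k - X) (y k - Y)) atTop (𝓝 0) := by
    refine squeeze_zero_norm (fun k => ?_) (a := fun k => √(b (x k - X) (x k - X) *
      b (y k - Y) (y k - Y))) ?_
    · rw [Real.norm_eq_abs]
      exact A1_cs P _ _
    · have h := (Real.continuous_sqrt.tendsto (0 * 0)).comp (hx.mul hy)
      rw [mul_zero, Real.sqrt_zero] at h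
      exact h
  have s2 : Tendsto (fun k => b (x k - X) Y) atTop (𝓝 0) := by
    refine squeeze_zero_norm (fun k => ?_) (a := fun k => √(b (x k - X) (x k - X) * b Y Y)) ?_
    · rw [Real.norm_eq_abs]
      exact A1_cs P _ _
    · have h := (Real.continuous_sqrt.tendsto (0 * b Y Y)).comp (hx.mul_const (b Y Y))
      rw [zero_mul, Real.sqrt_zero] at h
      exact h
  have s3 : Tendsto (fun k => b X (y k - Y)) atTop (𝓝 0) := by
    refine squeeze_zero_norm (fun k => ?_) (a := fun k => √(b X X * b (y k - Y) (y k - Y))) ?_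
    · rw [Real.norm_eq_abs]
      exact A1_cs P _ _
    · have h := (Real.continuous_sqrt.tendsto (b X X * 0)).comp (hy.const_mul (b X X))
      rw [mul_zero, Real.sqrt_zero] at h
      exact h
  have s4 := ((s1.add s2).add s3).add (tendsto_const_nhds (x := b X Y))
  rw [add_zero, zero_add, zero_add] at s4
  exact s4.congr fun k => (e1 k).symm

theorem eig_fam (hX : Surface Γ D) (m : Mt Γ D) (n : ℕ) : ∃ U : Fin n → TestS Γ, Fam hX m U := by
  have P := pair0 hX m
  have h1 := lam1 hX m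
  have hf : ∀ k, lam (aF hX m) (bF hX m (oneT Γ)) k ≠ ⊤ := by
    intro k
    have h := expT_top hX m (0 : TestS Γ) k
    rwa [expT_zero] at h
  have h0 : Tendsto (mu (aF hX m) (bF hX m (oneT Γ))) atTop (𝓝 0) := mu0_tendsto hX m
  have hfr : ∀ k : ℕ, ∃ u : Fin n → TestS Γ,
      LibQR35.Fr (aF hX m) (bF hX m (oneT Γ)) (oneT Γ) (1 / ((k : ℝ) + 1)) u := by
    intro k
    obtain ⟨u, hu1, hu2, hu3, hu4⟩ := BGS.frame P h1 hf n (ε := 1 / ((k : ℝ) + 1)) (by positivity)
    exact ⟨u, hu1, hu2, hu3, fun i => (hu4 i).1, fun i => (hu4 i).2⟩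
  choose w hw using hfr
  obtain ⟨s, hs, hc⟩ := LibQR35.compact_seq P h1 hf h0 w (A := 1) (B := mu0 hX m 0)
    (fun j i => by rw [(hw j).orth i i, if_pos rfl])
    (fun j i => ((hw j).up i).trans (mu_anti h1 (Nat.zero_le _)))
  have hδ : Tendsto (fun k : ℕ => 1 / ((s k : ℝ) + 1)) atTop (𝓝 0) :=
    (tendsto_one_div_add_atTop_nhds_zero_nat (𝕜 := ℝ)).comp hs.tendsto_atTop
  have hex : ∀ i : Fin n, ∃ U : TestS Γ, QR.IsEig hX m (oneT Γ) (mu0 hX m i)⁻¹ U ∧
      Tendsto (fun k => bF hX m (oneT Γ) (w (s k) i - U) (w (s k) i - U)) atTop (𝓝 0) := by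
    intro i
    refine QR.limit_eig hX m (oneT Γ) (fun _ => one_pos) (mu0 hX m i)⁻¹ (fun k => w (s k) i) ?_ ?_ ?_
    · intro δ hδ0
      obtain ⟨N, hN⟩ := hc δ hδ0
      exact ⟨N, fun p hp q hq => hN p hp q hq i⟩
    · exact ⟨1, fun k => by rw [(hw (s k)).orth i i, if_pos rfl]⟩
    · intro f
      have h2 : Tendsto (fun k => bF hX m (oneT Γ) (w (s k) i) f -
          mu0 hX m i * aF hX m (w (s k) i) f) atTop (𝓝 0) := by
        refine squeeze_zero_norm (fun k => ?_) (a := fun k : ℕ => √(4 * (n * (1 / ((s k : ℝ) + 1))) *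
          (n * (1 / ((s k : ℝ) + 1)) + mu0 hX m 0) * aF hX m f f)) ?_
        · rw [Real.norm_eq_abs]
          exact Real.abs_le_sqrt (LibQR35.near_eigen P h1 (by positivity) (hw (s k)) i f)
        · have h3 : Tendsto (fun k : ℕ => 4 * (n * (1 / ((s k : ℝ) + 1))) *
              (n * (1 / ((s k : ℝ) + 1)) + mu0 hX m 0) * aF hX m f f) atTop
              (𝓝 (4 * (n * 0) * (n * 0 + mu0 hX m 0) * aF hX m f f)) :=
            (((hδ.const_mul (n : ℝ)).const_mul 4).mul
              ((hδ.const_mul (n : ℝ)).add_const (mu0 hX m 0))).mul_const (aF hX m f f)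
          have h4 := (Real.continuous_sqrt.tendsto _).comp h3
          rw [mul_zero, mul_zero, zero_mul, zero_mul, Real.sqrt_zero] at h4
          exact h4
      have h5 := h2.const_mul (-(mu0 hX m i)⁻¹)
      rw [mul_zero] at h5
      refine h5.congr fun k => ?_
      have h6 := (mu0_pos hX m i).ne'
      field_simp
      ring
  choose U hU hUt using hex
  have hlim : ∀ i j : Fin n, Tendsto (fun k => bF hX m (oneT Γ) (w (s k) i) (w (s k) j)) atTop
      (𝓝 (bF hX m (oneT Γ) (U i) (U j))) := fun i j =>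
    A1_lim P _ _ _ _ (hUt i) (hUt j)
  refine ⟨U, hU, fun i j => ?_⟩
  rw [hU i (U j)]
  by_cases hij : i = j
  · subst hij
    rw [if_pos rfl]
    have h7 : Tendsto (fun k => bF hX m (oneT Γ) (w (s k) i) (w (s k) i)) atTop
        (𝓝 (mu0 hX m i)) := by
      have h8 : Tendsto (fun k : ℕ => mu0 hX m i - 1 / ((s k : ℝ) + 1)) atTop
          (𝓝 (mu0 hX m i - 0)) := tendsto_const_nhds.sub hδ
      rw [sub_zero] at h8
      exact tendsto_of_tendsto_of_tendsto_of_le_of_le h8 tendsto_const_nhds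
        (fun k => (hw (s k)).lo i) (fun k => (hw (s k)).up i)
    rw [tendsto_nhds_unique (hlim i i) h7, inv_mul_cancel₀ (mu0_pos hX m i).ne']
  · rw [if_neg hij]
    have h7 : Tendsto (fun k => bF hX m (oneT Γ) (w (s k) i) (w (s k) j)) atTop (𝓝 0) := by
      have h8 : (fun k => bF hX m (oneT Γ) (w (s k) i) (w (s k) j)) = fun _ => (0 : ℝ) := by
        funext k
        exact (hw (s k)).diag i j hij
      rw [h8]
      exact tendsto_const_nhds
    rw [tendsto_nhds_unique (hlim i j) h7, mul_zero]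

end BRS
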