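import Pool.Agent.LibBRS.Defs
import Pool.Agent.LibBGR.Kyf

/-! ROW A4 : Bessel, the tail of the expansion of a smooth function, Parseval for smooth functions.
35 min.

PLAN. `a = aF hX m`, `b = bF hX m (oneT Γ)`, `P = pair0 hX m`. `r = u - ∑_{j<N} b (e j) u • e j`.
By `h.orth`: `b (e j) r = 0` for `j < N`, `b r r = b u u - ∑_{j<N} b (e j) u ^2`. By `h.eig`:
`a (e j) r = 4 π x_j b (e j) r = 0`, so `a r r <= a u u` (`a u u = a r r + ∑ 4 π x_j (b (e j) u)^2`,
`x_j >= 0` because `4 π x_j = a (e j) (e j)`). `N = 0`: `x_zero`, the left side is `0`. `N = M + 1`: if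
`a r r = 0` then `r = c • oneT` (`P.aker`) and `b (e 0) r = 0`: the eigenfunction `e 0` has
`a (e 0) (e 0) = 0` (`x_zero`), so `e 0 = c' • oneT`, `c' ≠ 0`, hence `b r r = 0`. Otherwise apply
`BGS.kyfan P (lam1 hX m)` to the `M + 1` vectors `(√(4 π x (j+1)))⁻¹ • e (j + 1)`, `j < M`, and
`(√(a r r))⁻¹ • r` (all `b`-orthogonal to `oneT Γ`, `a`-orthonormal):
`∑_{j<M} mu j + b r r / a r r <= ∑_{k<M+1} mu k`, i.e. `b r r <= mu M * a r r`, and
`4 π x (M+1) = (mu0 M)⁻¹` (`x_succ`). `hasSum`: `x m N → ∞` because `mu0 → 0` (`x_succ`,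
`mu0_tendsto`), so `0 <= b u u - ∑_{j<N} .. <= a u u / (4 π x N) → 0`;
`hasSum_iff_tendsto_nat_of_nonneg`. -/

open MeasureTheory Set Filter Topology BGS
open scoped ContDiff ENNReal NNReal

namespace BRS

section A4abs

variable {E : Type} [AddCommGroup E] [Module ℝ E] {a b : LinearMap.BilinForm ℝ E} {o : E}

private noncomputable def A4_r (b : LinearMap.BilinForm ℝ E) (e : ℕ → E) (u : E) (N : ℕ) : E :=
  u - ∑ j ∈ Finset.range N, b (e j) u • e j

private theorem A4_form (b : LinearMap.BilinForm ℝ E) (c : LinearMap.BilinForm ℝ E) (e : ℕ → E)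
    (u : E) (N : ℕ) (v : E) : c v (A4_r b e u N) =
      c v u - ∑ j ∈ Finset.range N, b (e j) u * c v (e j) := by
  unfold A4_r
  simp only [map_sub, map_sum, map_smul, smul_eq_mul]

private theorem A4_form' (b : LinearMap.BilinForm ℝ E) (c : LinearMap.BilinForm ℝ E) (e : ℕ → E)
    (u : E) (N : ℕ) (v : E) : c (A4_r b e u N) v =
      c u v - ∑ j ∈ Finset.range N, b (e j) u * c (e j) v := by
  unfold A4_r
  simp only [map_sub, map_sum, map_smul, smul_eq_mul, LinearMap.sub_apply, LinearMap.sum_apply,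
    LinearMap.smul_apply]

private theorem A4_orth (e : ℕ → E) (horth : ∀ i j, b (e i) (e j) = if i = j then 1 else 0)
    (u : E) (N j : ℕ) (hj : j < N) : b (e j) (A4_r b e u N) = 0 := by
  rw [A4_form]
  simp only [horth, mul_ite, mul_one, mul_zero]
  rw [Finset.sum_ite_eq, if_pos (Finset.mem_range.2 hj), sub_self]

private theorem A4_brr (P : IsPair a b o) (e : ℕ → E)
    (horth : ∀ i j, b (e i) (e j) = if i = j then 1 else 0) (u : E) (N : ℕ) :
    b (A4_r b e u N) (A4_r b e u N) = b u u - ∑ j ∈ Finset.range N, b (e j) u ^ 2 := by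
  rw [A4_form']
  have h1 : ∑ j ∈ Finset.range N, b (e j) u * b (e j) (A4_r b e u N) = 0 := by
    refine Finset.sum_eq_zero fun j hj => ?_
    rw [A4_orth e horth u N j (Finset.mem_range.1 hj), mul_zero]
  rw [h1, sub_zero, A4_form]
  congr 1
  refine Finset.sum_congr rfl fun j _ => ?_
  rw [P.bsym u (e j), sq]

private theorem A4_bessel (P : IsPair a b o) (e : ℕ → E)
    (horth : ∀ i j, b (e i) (e j) = if i = j then 1 else 0) (u : E) (N : ℕ) :
    ∑ j ∈ Finset.range N, b (e j) u ^ 2 ≤ b u u := by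
  have h1 := A4_brr P e horth u N
  have h2 : 0 ≤ b (A4_r b e u N) (A4_r b e u N) := by
    by_cases h : A4_r b e u N = 0
    · rw [h, map_zero]
    · exact (P.bpos _ h).le
  linarith

private theorem A4_arr (P : IsPair a b o) (e : ℕ → E) (L : ℕ → ℝ)
    (heig : ∀ j v, a (e j) v = L j * b (e j) v)
    (horth : ∀ i j, b (e i) (e j) = if i = j then 1 else 0) (u : E) (N : ℕ) :
    a (A4_r b e u N) (A4_r b e u N) ≤ a u u := by
  rw [A4_form']
  have h1 : ∑ j ∈ Finset.range N, b (e j) u * a (e j) (A4_r b e u N) = 0 := by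
    refine Finset.sum_eq_zero fun j hj => ?_
    rw [heig, A4_orth e horth u N j (Finset.mem_range.1 hj), mul_zero, mul_zero]
  rw [h1, sub_zero, A4_form]
  have h2 : 0 ≤ ∑ j ∈ Finset.range N, b (e j) u * a u (e j) := by
    refine Finset.sum_nonneg fun j _ => ?_
    have h3 : 0 ≤ L j := by
      have h4 := P.apos (e j)
      rw [heig, horth, if_pos rfl, mul_one] at h4
      exact h4
    rw [P.asym u (e j), heig]
    have : b (e j) u * (L j * b (e j) u) = L j * b (e j) u ^ 2 := by ring
    rw [this]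
    exact mul_nonneg h3 (sq_nonneg _)
  linarith

private theorem A4_tail (P : IsPair a b o) (h1 : lam a b 1 ≠ 0) (e : ℕ → E) (L : ℕ → ℝ)
    (heig : ∀ j v, a (e j) v = L j * b (e j) v)
    (horth : ∀ i j, b (e i) (e j) = if i = j then 1 else 0) (hL0 : L 0 = 0)
    (hLs : ∀ k, L (k + 1) = (mu a b k)⁻¹) (hmu : ∀ k, 0 < mu a b k) (u : E) (N : ℕ) :
    L N * (b u u - ∑ j ∈ Finset.range N, b (e j) u ^ 2) ≤ a u u := by
  cases N with
  | zero =>
    rw [hL0, zero_mul]
    exact P.apos u
  | succ M =>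
    rw [← A4_brr P e horth u (M + 1)]
    refine le_trans ?_ (A4_arr P e L heig horth u (M + 1))
    set r : E := A4_r b e u (M + 1) with hr
    have hor : ∀ j, j < M + 1 → b (e j) r = 0 := fun j hj => A4_orth e horth u (M + 1) j hj
    have har : ∀ j, j < M + 1 → a (e j) r = 0 := fun j hj => by rw [heig, hor j hj, mul_zero]
    have hLpos : ∀ k, 0 < L (k + 1) := fun k => by rw [hLs]; exact inv_pos.2 (hmu k)
    -- the function e 0
    obtain ⟨c', hc'⟩ : ∃ c' : ℝ, e 0 = c' • o := by
      apply P.aker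
      rw [heig, hL0, zero_mul]
    have hc'0 : c' ≠ 0 := by
      intro h
      have h2 := horth 0 0
      rw [hc', h, zero_smul, map_zero, if_pos rfl] at h2
      exact zero_ne_one h2
    have hro : b r o = 0 := by
      have h2 := hor 0 (Nat.succ_pos M)
      rw [hc', map_smul, LinearMap.smul_apply, smul_eq_mul] at h2
      rw [P.bsym]
      exact (mul_eq_zero.1 h2).resolve_left hc'0
    rcases (P.apos r).eq_or_lt with hz | hpos
    · obtain ⟨c, hc⟩ := P.aker r hz.symm
      have h2 : b r r = 0 := by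
        have h3 : b r r = b (c • o) r := by rw [← hc]
        rw [h3, map_smul, LinearMap.smul_apply, P.bsym, hro, smul_zero]
      rw [h2, mul_zero]
      exact P.apos r
    · -- Ky Fan
      set A : ℝ := a r r with hA
      have hsA : 0 < √A := Real.sqrt_pos.2 hpos
      set w : Fin (M + 1) → E := Fin.snoc (α := fun _ => E)
        (fun i : Fin M => (√(L (i + 1)))⁻¹ • e (i + 1)) ((√A)⁻¹ • r) with hw
      have hwc : ∀ i : Fin M, w i.castSucc = (√(L (i + 1)))⁻¹ • e (i + 1) := fun i => by
        rw [hw, Fin.snoc_castSucc]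
      have hwl : w (Fin.last M) = (√A)⁻¹ • r := by
        rw [hw, Fin.snoc_last]
      have hLi : ∀ i : ℕ, (√(L (i + 1)))⁻¹ * ((√(L (i + 1)))⁻¹ * L (i + 1)) = 1 := by
        intro i
        have h2 : √(L (i + 1)) ≠ 0 := (Real.sqrt_pos.2 (hLpos i)).ne'
        have h3 := Real.mul_self_sqrt (hLpos i).le
        field_simp
        rw [sq]
        exact h3.symm
      have hAi : (√A)⁻¹ * ((√A)⁻¹ * A) = 1 := by
        have h2 : √A ≠ 0 := hsA.ne'
        have h3 := Real.mul_self_sqrt hpos.le
        field_simp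
        rw [sq]
        exact h3.symm
      have hww : ∀ i j, a (w i) (w j) = if i = j then 1 else 0 := by
        intro i j
        refine Fin.lastCases ?_ (fun i => ?_) i <;> refine Fin.lastCases ?_ (fun j => ?_) j
        · rw [hwl, map_smul, map_smul, LinearMap.smul_apply, smul_eq_mul, smul_eq_mul, if_pos rfl]
          exact hAi
        · rw [hwl, hwc, map_smul, map_smul, LinearMap.smul_apply, smul_eq_mul, smul_eq_mul,
            P.asym r, har (j + 1) (by omega), if_neg (Fin.castSucc_lt_last j).ne']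
          ring
        · rw [hwl, hwc, map_smul, map_smul, LinearMap.smul_apply, smul_eq_mul, smul_eq_mul,
            har (i + 1) (by omega), if_neg (Fin.castSucc_lt_last i).ne]
          ring
        · rw [hwc, hwc, map_smul, map_smul, LinearMap.smul_apply, smul_eq_mul, smul_eq_mul, heig,
            horth]
          by_cases hij : i = j
          · subst hij
            rw [if_pos rfl, if_pos rfl, mul_one]
            exact hLi i
          · have h2 : ¬ ((i : ℕ) + 1 = j + 1) := fun h => hij (Fin.ext (by omega))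
            have h3 : ¬ (i.castSucc = j.castSucc) := fun h => hij (Fin.castSucc_injective _ h)
            rw [if_neg h2, if_neg h3]
            ring
      have hwo : ∀ i, b (w i) o = 0 := by
        intro i
        refine Fin.lastCases ?_ (fun i => ?_) i
        · rw [hwl, map_smul, LinearMap.smul_apply, hro, smul_zero]
        · rw [hwc, map_smul, LinearMap.smul_apply]
          have h2 := heig (i + 1) o
          rw [P.asym, P.ae] at h2
          have h3 := (mul_eq_zero.1 h2.symm).resolve_left (hLpos i).ne'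
          rw [h3, smul_zero]
      have hk := kyfan P h1 w hww
      rw [Fin.sum_univ_castSucc, Finset.sum_range_succ, Finset.sum_range] at hk
      have hd : ∀ i : Fin M, b (w i.castSucc) (w i.castSucc) - b (w i.castSucc) o ^ 2 / b o o =
          mu a b i := by
        intro i
        rw [hwo, hwc, map_smul, map_smul, LinearMap.smul_apply, smul_eq_mul, smul_eq_mul, horth,
          if_pos rfl]
        have h3 := hLi i
        have h5 : mu a b i = (L (i + 1))⁻¹ := by rw [hLs, inv_inv]
        rw [h5]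
        apply eq_inv_of_mul_eq_one_left
        linear_combination h3
      have hl : b (w (Fin.last M)) (w (Fin.last M)) - b (w (Fin.last M)) o ^ 2 / b o o =
          b r r / A := by
        rw [hwo, hwl, map_smul, map_smul, LinearMap.smul_apply, smul_eq_mul, smul_eq_mul]
        rw [eq_div_iff hpos.ne']
        calc ((√A)⁻¹ * ((√A)⁻¹ * b r r) - 0 ^ 2 / b o o) * A =
              ((√A)⁻¹ * ((√A)⁻¹ * A)) * b r r := by ring
          _ = b r r := by rw [hAi, one_mul]
      rw [Finset.sum_congr rfl fun i _ => hd i, hl] at hk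
      have h6 : b r r / A ≤ mu a b M := by linarith
      rw [div_le_iff₀ hpos] at h6
      rw [hLs]
      calc (mu a b M)⁻¹ * b r r ≤ (mu a b M)⁻¹ * (mu a b M * A) :=
            mul_le_mul_of_nonneg_left h6 (inv_nonneg.2 (hmu M).le)
        _ = A := by rw [← mul_assoc, inv_mul_cancel₀ (hmu M).ne', one_mul]

end A4abs

variable {Γ : Type} [Group Γ] [MulAction Γ Pl] {D : Set Pl}

theorem bessel (hX : Surface Γ D) (m : Mt Γ D) {e : ℕ → TestS Γ} (h : IsBas hX m e)
    (u : TestS Γ) (N : ℕ) :
    ∑ j ∈ Finset.range N, bF hX m (oneT Γ) (e j) u ^ 2 ≤ bF hX m (oneT Γ) u u :=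
  A4_bessel (pair0 hX m) e h.orth u N

theorem tail (hX : Surface Γ D) (m : Mt Γ D) {e : ℕ → TestS Γ} (h : IsBas hX m e)
    (u : TestS Γ) (N : ℕ) :
    4 * Real.pi * x m N * (bF hX m (oneT Γ) u u -
      ∑ j ∈ Finset.range N, bF hX m (oneT Γ) (e j) u ^ 2) ≤ aF hX m u u :=
  A4_tail (pair0 hX m) (lam1 hX m) e (fun j => 4 * Real.pi * x m j) (fun j v => h.eig j v) h.orth
    (by rw [x_zero hX, mul_zero]) (fun k => x_succ hX m k) (fun k => mu0_pos hX m k) u N

theorem hasSum (hX : Surface Γ D) (m : Mt Γ D) {e : ℕ → TestS Γ} (h : IsBas hX m e)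
    (u : TestS Γ) : HasSum (fun j => bF hX m (oneT Γ) (e j) u ^ 2) (bF hX m (oneT Γ) u u) := by
  rw [hasSum_iff_tendsto_nat_of_nonneg (fun j => sq_nonneg _), ← tendsto_add_atTop_iff_nat 1]
  have h1 : ∀ N, bF hX m (oneT Γ) u u - mu0 hX m N * aF hX m u u ≤
      ∑ j ∈ Finset.range (N + 1), bF hX m (oneT Γ) (e j) u ^ 2 := by
    intro N
    have h2 := tail hX m h u (N + 1)
    rw [x_succ hX] at h2
    have h3 := mul_le_mul_of_nonneg_left h2 (mu0_pos hX m N).le
    rw [← mul_assoc, mul_inv_cancel₀ (mu0_pos hX m N).ne', one_mul] at h3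
    linarith
  have h4 : Tendsto (fun N => bF hX m (oneT Γ) u u - mu0 hX m N * aF hX m u u) atTop
      (𝓝 (bF hX m (oneT Γ) u u)) := by
    have h5 := ((mu0_tendsto hX m).mul_const (aF hX m u u)).const_sub (bF hX m (oneT Γ) u u)
    simpa using h5
  exact tendsto_of_tendsto_of_tendsto_of_le_of_le h4 tendsto_const_nhds h1
    fun N => bessel hX m h u (N + 1)

end BRS
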