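import Pool.Agent.LibQR35.C0
import Pool.Agent.LibQR35.C2
import Pool.Agent.LibQR35.C3
import Pool.Agent.LibQR35.C11
import Pool.Agent.LibQR40.Api
import Pool.Agent.LibBGR.Asm4
import Pool.Agent.LibBGR.AE_GMU

/-! Smooth eigenfunctions of a surface: definitions and the statements of the rows (BRS board). -/

open MeasureTheory Set Filter Topology BGS
open scoped ContDiff ENNReal NNReal

namespace BRS

variable {Γ : Type} [Group Γ] [MulAction Γ Pl] {D : Set Pl}

/-- Orthonormal smooth eigenfunctions for all levels `4 π x_j`. -/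
structure IsBas (hX : Surface Γ D) (m : Mt Γ D) (e : ℕ → TestS Γ) : Prop where
  eig : ∀ j, QR.IsEig hX m (oneT Γ) (4 * Real.pi * x m j) (e j)
  orth : ∀ i j, bF hX m (oneT Γ) (e i) (e j) = if i = j then 1 else 0

/-- The reciprocals of the positive levels. -/
noncomputable def mu0 (hX : Surface Γ D) (m : Mt Γ D) (k : ℕ) : ℝ :=
  mu (aF hX m) (bF hX m (oneT Γ)) k

/-- `n` eigenfunctions, orthonormal for the energy, for the first `n` positive levels. -/
structure Fam (hX : Surface Γ D) (m : Mt Γ D) {n : ℕ} (U : Fin n → TestS Γ) : Prop where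
  eig : ∀ i : Fin n, QR.IsEig hX m (oneT Γ) (mu0 hX m i)⁻¹ (U i)
  orth : ∀ i j : Fin n, aF hX m (U i) (U j) = if i = j then 1 else 0

theorem expT_zero : expT (0 : TestS Γ) = oneT Γ := by
  apply Subtype.ext
  funext z
  show Real.exp 0 = 1
  exact Real.exp_zero

theorem pair0 (hX : Surface Γ D) (m : Mt Γ D) :
    IsPair (aF hX m) (bF hX m (oneT Γ)) (oneT Γ) :=
  pair_surface hX m (oneT Γ) fun _ => one_pos

theorem lam1 (hX : Surface Γ D) (m : Mt Γ D) : lam (aF hX m) (bF hX m (oneT Γ)) 1 ≠ 0 := by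
  have h := expT_lam1 hX m (0 : TestS Γ)
  rwa [expT_zero] at h

theorem mu0_tendsto (hX : Surface Γ D) (m : Mt Γ D) : Tendsto (mu0 hX m) atTop (𝓝 0) := by
  have h := LibQR35.mu_tendsto hX m (0 : TestS Γ)
  rwa [expT_zero] at h

theorem mu0_pos (hX : Surface Γ D) (m : Mt Γ D) (k : ℕ) : 0 < mu0 hX m k := by
  have h1 : lam (aF hX m) (bF hX m (oneT Γ)) (k + 1) ≠ ⊤ := by
    have h := expT_top hX m (0 : TestS Γ) (k + 1)
    rwa [expT_zero] at h
  have h2 : lam (aF hX m) (bF hX m (oneT Γ)) (k + 1) ≠ 0 := fun h0 =>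
    lam1 hX m (le_antisymm (h0 ▸ lam_mono (aF hX m) (bF hX m (oneT Γ)) (by omega)) bot_le)
  unfold mu0 mu
  exact ENNReal.toReal_pos (ENNReal.inv_ne_zero.2 h1) (ENNReal.inv_ne_top.2 h2)

/-- The levels in terms of `mu0`. -/
theorem x_succ (hX : Surface Γ D) (m : Mt Γ D) (k : ℕ) :
    4 * Real.pi * x m (k + 1) = (mu0 hX m k)⁻¹ := by
  have h := ASM_x_succ hX m m (oneT Γ) (fun _ => one_pos) (c := 1) one_pos (fun z => by
    show m.1.1 z = ((1 : ℝ) * 1) • m.1.1 z
    rw [one_mul, one_smul]) k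
  rw [h]
  unfold mu0
  have := Real.pi_pos
  field_simp

theorem x_zero (hX : Surface Γ D) (m : Mt Γ D) : x m 0 = 0 := by
  unfold x lvl
  rw [ev_eq_lam hX m m (oneT Γ) (fun _ => one_pos) (c := 1) one_pos (fun z => by
    show m.1.1 z = ((1 : ℝ) * 1) • m.1.1 z
    rw [one_mul, one_smul]) 0, GMU_lam0 (pair0 hX m)]
  simp

end BRS
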